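import Pool.Agent.Lib.MP_688fd0_co.SQ5.N.Iface
import Pool.Agent.Lib.MP_688fd0_co.SQ5.H23.C2All

/-!
Type C2, LEVEL 3, near (helper98; papers 4231, 4294, plans of helper12, helper85): all letters are involutions
(`eps = -1`), `a` has the largest and `b` the smallest height; for every other letter `s` a fraction `num s / den s` with a
small denominator: `a s` has the height `num s / den s` of `w = a b`.

Local worlds: a few middle letters `t s`, `s : σ`, with the common denominator `e`: `w ∈ u ^ e D`, `a (t s) ∈ u ^ (i s) D`.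
Strands `Fin e × D` and rungs as in `SQ5/N/Iface.lean`, one class of rungs for every `s : σ`.
-/

set_option autoImplicit false

namespace Pool.Agent.Lib.MP_688fd0_co.SQ5.NA

open Pool.Agent.Lib.MP_688fd0_co.OSF Pool.Agent.Lib.MP_688fd0_co.SQ2 Pool.Agent.Lib.MP_688fd0_co.SQ3
open Pool.Agent.Lib.MP_688fd0_co.SQ4 Pool.Agent.Lib.MP_688fd0_co.SQ5.N
open SQ2.V (Puz)

/-! ### The strands -/

section model

variable {σ D : Type} [Group D]

/-- The rungs: the letter and the rung of this letter. -/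
abbrev RgA (σ : Type) (e k : ℕ) (D : Type) := Σ _ : σ, RgN e k D

/-- The second strand of a rung. -/
def yA (e : ℕ) [NeZero e] (w : D) (p : σ → D) (i : σ → ℕ) (k : ℕ) (r : RgA σ e k D) : Fin e × D :=
  yN e w (p r.1) (i r.1) k r.2

/-- Two strands are joined by a rung. -/
def JnA (e : ℕ) [NeZero e] (w : D) (p : σ → D) (i : σ → ℕ) (k : ℕ) (v v' : Fin e × D) : Prop :=
  ∃ s, JnN e w (p s) (i s) k v v'

/-- The component of `v₀`. -/
def CmpA (e : ℕ) [NeZero e] (w : D) (p : σ → D) (i : σ → ℕ) (k : ℕ) (v₀ : Fin e × D) (A : Fin e × D → Prop) : Prop :=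
  ∀ v, A v ↔ Relation.ReflTransGen (JnA e w p i k) v₀ v

end model

/-- GRAPHA: the puzzle of a component. (`tau` keeps the letter and every set which is closed under the rungs of the
letter.) -/
def GraphAS : Prop :=
  ∀ (σ : Type) [Fintype σ] [DecidableEq σ] (D : Type) [Group D] [Fintype D] [DecidableEq D] (w : D) (p : σ → D)
    (i : σ → ℕ) (e k : ℕ) [NeZero e], (∀ s, 0 < i s) → (∀ s, i s < e) → 0 < k → Nat.card D ∣ k →
    ((∃ s, p s * w ≠ w * p s) ∨ ∃ s s', p s * p s' ≠ p s' * p s) →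
    ∀ (v₀ : Fin e × D) (A : Fin e × D → Prop), CmpA e w p i k v₀ A →
    ∀ (J : RgA σ e k D → Prop), (∀ r, J r ↔ A r.2.1) →
    ∀ P : Puz {v // A v} {r : RgA σ e k D // J r}, (∀ r, (P.x r).1 = r.1.2.1) → (∀ r, (P.y r).1 = yA e w p i k r.1) →
      (∀ r, (P.tau r).1.1 = r.1.1) →
      (∀ (s : σ) (E : Fin e × D → Prop), (∀ r : RgN e k D, E r.1 ↔ E (yN e w (p s) (i s) k r)) →
        ∀ r, r.1.1 = s → (E (P.x r).1 ↔ E (P.x (P.tau r)).1)) →
      SQ4.SCon P ∧ P.TwoN ∧ P.NoCut ∧ P.ConnS ∧ ∀ v, {r | P.On r v}.ncard = 2 * k * Fintype.card σ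

/-- EXAT: two letters which are not both exact (walk along the powers of `p⁻¹ p'`). -/
def ExaTS : Prop :=
  ∀ (D : Type) [Group D] [Fintype D] (w p p' : D) (i i' e k : ℕ) [NeZero e], 0 < i → i < e → 0 < i' → i' < e → 0 < k →
    Nat.card D ∣ k →
    ∀ (v₀ : Fin e × D) (A : Fin e × D → Prop), A v₀ → (∀ r : RgN e k D, A r.1 ↔ A (yN e w p i k r)) →
      (∀ r : RgN e k D, A r.1 ↔ A (yN e w p' i' k r)) →
    ∀ (F : Type) [Field F] (χ : D →* F), χ w = 1 → χ p = χ p' → ((e * k : ℕ) : F) ≠ 0 →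
      ∀ (τ τ' : F) (Φ : Fin e × D → F),
        (∀ r : RgN e k D, A r.1 → χ r.1.2 * τ = Φ (yN e w p i k r) - Φ r.1) →
        (∀ r : RgN e k D, A r.1 → χ r.1.2 * τ' = Φ (yN e w p' i' k r) - Φ r.1) → τ = τ'

/-- WSUMA: the sum of weights which depend on the line of the strand only. The group generated by `(e, w)` and the
`(i s, p s)` in `ℤ × D` is transitive (from the left, conjugated) on the component and on the lines in
`v₀.2 ⟨w, p s⟩ / ⟨w⟩`. -/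
def WsumAS : Prop :=
  ∀ (σ : Type) (D : Type) [Group D] [Fintype D] (w : D) (p : σ → D) (i : σ → ℕ) (e k : ℕ) [NeZero e],
    (∀ s, 0 < i s) → (∀ s, i s < e) → 0 < k → Nat.card D ∣ k →
    ∀ (v₀ : Fin e × D) (A : Fin e × D → Prop) [DecidablePred A], CmpA e w p i k v₀ A →
    ∀ (H : Subgroup D) [DecidablePred (· ∈ H)], H = Subgroup.closure (insert w (Set.range p)) →
    ∀ (F : Type) [Field F] (ω : D → F), (∀ d, ω (d * w) = ω d) → (∀ n : ℕ, 0 < n → n ≤ e * k → (n : F) ≠ 0) →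
      (∑ d, if v₀.2⁻¹ * d ∈ H then ω d else 0) ≠ 0 → (∑ v : Fin e × D, if A v then ω v.2 else 0) ≠ 0

/-! ### Local worlds -/

/-- A local world. -/
structure HypS {Q : Type} [Group Q] (B : Lb.{0, 0} Q) (a b : B.L) {σ : Type} (t : σ → B.L) (eps : Q →* ℤˣ)
    (D : Subgroup Q) (u : Q) (i : σ → ℕ) (e k : ℕ) : Prop where
  fin : Finite Q
  kpos : 0 < k
  epos : 0 < e
  nD : D.Normal
  leD : D ≤ eps.ker
  card : Nat.card D ∣ k
  eu : eps u = 1
  ea : eps (B.q a) = -1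
  eb : eps (B.q b) = -1
  et : ∀ s, eps (B.q (t s)) = -1
  ia : B.q a * B.q a = 1
  ib : B.q b * B.q b = 1
  it : ∀ s, B.q (t s) * B.q (t s) = 1
  ipos : ∀ s, 0 < i s
  ilt : ∀ s, i s < e
  cen : ∀ x : Q, eps x = 1 → x * u = u * x
  copk : (orderOf u).Coprime (k * e)
  big : 100 * k ^ 3 * e ^ 3 < orderOf u
  ker : ∀ x, eps x = 1 → ∃ n : ℤ, ∃ d ∈ D, x = u ^ n * d
  mw : (u ^ e)⁻¹ * (B.q a * (B.q b)⁻¹) ∈ D
  mp : ∀ s, (u ^ i s)⁻¹ * (B.q a * (B.q (t s))⁻¹) ∈ D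
  turn : B.q a * u * (B.q a)⁻¹ = u⁻¹

section grp

variable {Q : Type} [Group Q] {B : Lb.{0, 0} Q} {a b : B.L} {σ : Type} {t : σ → B.L} {eps : Q →* ℤˣ}
  {D : Subgroup Q} {u : Q} {i : σ → ℕ} {e k : ℕ}

/-- The lines. -/
def HypS.up (H : HypS B a b t eps D u i e k) : Up B := upC B a b eps H.ea H.eb

/-- The `D`-part of `w = a b⁻¹`. -/
def HypS.wD (H : HypS B a b t eps D u i e k) : D := ⟨(u ^ e)⁻¹ * (B.q a * (B.q b)⁻¹), H.mw⟩

/-- The `D`-part of `p = a t⁻¹`. -/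
def HypS.pD (H : HypS B a b t eps D u i e k) (s : σ) : D := ⟨(u ^ i s)⁻¹ * (B.q a * (B.q (t s))⁻¹), H.mp s⟩

theorem HypS.nz (H : HypS B a b t eps D u i e k) : NeZero e := ⟨H.epos.ne'⟩

/-- The powers of `u` meet `D` in `1` only. -/
theorem HypS.dis (H : HypS B a b t eps D u i e k) {n : ℤ} (h : u ^ n ∈ D) : u ^ n = 1 := by
  have := H.fin
  have h1 : orderOf (u ^ n) ∣ Nat.card D := by
    have := orderOf_dvd_natCard (⟨u ^ n, h⟩ : D)
    rwa [Subgroup.orderOf_mk] at this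
  have h2 : orderOf (u ^ n) ∣ orderOf u := by
    rw [orderOf_dvd_iff_pow_eq_one, ← zpow_natCast, ← zpow_mul, mul_comm, zpow_mul, zpow_natCast, pow_orderOf_eq_one,
      one_zpow]
  have h3 : (orderOf u).Coprime k := H.copk.coprime_mul_right_right
  rw [← orderOf_eq_one_iff, ← Nat.dvd_one, ← h3]
  exact Nat.dvd_gcd h2 (h1.trans H.card)

theorem HypS.inj (H : HypS B a b t eps D u i e k) : Function.Injective (gN D u e) := by
  have := H.fin
  rintro ⟨c, d⟩ ⟨c', d'⟩ h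
  have h0 : u ^ (c : ℕ) * (d : Q) = u ^ (c' : ℕ) * (d' : Q) := h
  have h1 : u ^ ((c : ℤ) - (c' : ℤ)) = (d' : Q) * (d : Q)⁻¹ := by
    have h3 : u ^ ((c : ℤ) - (c' : ℤ)) = (u ^ (c' : ℕ))⁻¹ * u ^ (c : ℕ) := by
      rw [sub_eq_neg_add, zpow_add, zpow_neg, zpow_natCast, zpow_natCast]
    rw [h3, eq_mul_inv_iff_mul_eq, mul_assoc, h0, inv_mul_cancel_left]
  have h4 := H.dis (n := (c : ℤ) - c') (by rw [h1]; exact D.mul_mem d'.2 (D.inv_mem d.2))
  have h5 : (orderOf u : ℤ) ∣ (c : ℤ) - c' := orderOf_dvd_iff_zpow_eq_one.2 h4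
  have h6 : e < orderOf u := by
    have h7 := H.big
    have h8 : 1 ≤ 100 * k ^ 3 := Nat.mul_pos (by norm_num) (Nat.pow_pos H.kpos)
    have h9 : e ≤ e ^ 3 := Nat.le_self_pow (by norm_num) _
    have h10 := Nat.mul_le_mul h8 h9
    omega
  have hc := c.2
  have hc' := c'.2
  have h7 : (c : ℤ) - c' = 0 := by
    apply Int.eq_zero_of_abs_lt_dvd h5
    rw [abs_lt]
    constructor <;> omega
  have h8 : c = c' := Fin.ext (by omega)
  subst h8
  have h9 : d = d' := Subtype.ext (mul_left_cancel h0)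
  rw [h9]

theorem HypS.eps_w (H : HypS B a b t eps D u i e k) : eps (B.q a * (B.q b)⁻¹) = 1 := by
  rw [map_mul, map_inv, H.ea, H.eb]; decide

/-- `U ^ (2 k) x = z ^ k x`, `z = u ^ e`. -/
theorem HypS.per (H : HypS B a b t eps D u i e k) : Per H.up (2 * k) ((u ^ e) ^ k) := by
  have hu := H.eu
  have hw1 := H.eps_w
  have hz1 : eps (u ^ e) = 1 := by rw [map_pow, hu, one_pow]
  have hwk : (B.q a * (B.q b)⁻¹) ^ k = (u ^ e) ^ k := by
    have := H.fin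
    have h1 : ((u ^ e)⁻¹ * (B.q a * (B.q b)⁻¹)) ^ k = 1 := by
      have h2 : orderOf ((u ^ e)⁻¹ * (B.q a * (B.q b)⁻¹)) ∣ Nat.card D := by
        have := orderOf_dvd_natCard (⟨_, H.mw⟩ : D)
        rwa [Subgroup.orderOf_mk] at this
      exact orderOf_dvd_iff_pow_eq_one.1 (h2.trans H.card)
    have h2 : Commute (u ^ e) ((u ^ e)⁻¹ * (B.q a * (B.q b)⁻¹)) := by
      refine (Commute.pow_left (H.cen _ ?_).symm _)
      rw [map_mul, map_inv, hz1, hw1]; decide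
    have h3 : B.q a * (B.q b)⁻¹ = u ^ e * ((u ^ e)⁻¹ * (B.q a * (B.q b)⁻¹)) := by
      rw [mul_inv_cancel_left]
    rw [h3, h2.mul_pow, h1, mul_one]
  have hzk : eps ((u ^ e) ^ k) = 1 := by rw [map_pow, hz1, one_pow]
  have hup : ∀ x, H.up.up ((u ^ e) ^ k * x) = H.up.up x := by
    intro x
    show (if eps ((u ^ e) ^ k * x) = 1 then a else B.inv b) = if eps x = 1 then a else B.inv b
    rw [map_mul, hzk, one_mul]
  have h2 : ∀ x, eps x = 1 → ∀ n : ℕ, (H.up.U ^ (2 * n)) x = x * (B.q a * (B.q b)⁻¹) ^ n := by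
    intro x hx n
    induction n with
    | zero => simp
    | succ n ih =>
      have h3 : ∀ y, eps y = 1 → H.up.U (H.up.U y) = y * (B.q a * (B.q b)⁻¹) := by
        intro y hy
        have h4 : H.up.U y = y * B.q a := if_pos hy
        have h5 : eps (y * B.q a) ≠ 1 := by rw [map_mul, hy, H.ea]; decide
        rw [h4]
        have h6 : H.up.U (y * B.q a) = y * B.q a * (B.q b)⁻¹ := if_neg h5
        rw [h6, mul_assoc]
      rw [Nat.mul_succ, H.up.U_pow_succ', H.up.U_pow_succ', ih, h3 _ (by rw [map_mul, hx, map_pow, hw1, one_pow, one_mul]),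
        pow_succ, mul_assoc]
  refine ⟨fun x => ?_, hup⟩
  rcases Int.units_eq_one_or (eps x) with hx | hx
  · rw [h2 x hx k, hwk]
    have h3 : Commute x (u ^ e) := Commute.pow_right (H.cen x hx) _
    exact (h3.pow_right k).eq
  · have h3 : x = H.up.U (x * (B.q a)⁻¹) := by
      have h4 : eps (x * (B.q a)⁻¹) = 1 := by rw [map_mul, map_inv, hx, H.ea]; decide
      have h5 : H.up.U (x * (B.q a)⁻¹) = x * (B.q a)⁻¹ * B.q a := if_pos h4
      rw [h5, inv_mul_cancel_right]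
    have h4 : eps (x * (B.q a)⁻¹) = 1 := by rw [map_mul, map_inv, hx, H.ea]; decide
    have h5 : (H.up.U ^ (2 * k)) (x * (B.q a)⁻¹) = (u ^ e) ^ k * (x * (B.q a)⁻¹) := by
      rw [h2 _ h4 k, hwk]
      have h3 : Commute (x * (B.q a)⁻¹) (u ^ e) := Commute.pow_right (H.cen _ h4) _
      exact (h3.pow_right k).eq
    have h6 : (H.up.U ^ (2 * k)) (H.up.U (x * (B.q a)⁻¹)) = H.up.U ((H.up.U ^ (2 * k)) (x * (B.q a)⁻¹)) := by
      rw [← H.up.U_pow_succ', ← H.up.U_pow_succ]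
    calc (H.up.U ^ (2 * k)) x = (H.up.U ^ (2 * k)) (H.up.U (x * (B.q a)⁻¹)) := by rw [← h3]
      _ = H.up.U ((u ^ e) ^ k * (x * (B.q a)⁻¹)) := by rw [h6, h5]
      _ = (u ^ e) ^ k * H.up.U (x * (B.q a)⁻¹) := by
        rw [H.up.hU, H.up.hU, hup, mul_assoc]
      _ = _ := by rw [← h3]

/-- The frontier. -/
def FS (D : Subgroup Q) [Fintype D] (u : Q) (e : ℕ) [DecidableEq Q] : Finset Q := Finset.univ.image (gN D u e)

/-- The world is not commutative. -/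
def HypS.NC (H : HypS B a b t eps D u i e k) : Prop :=
  (∃ s, H.pD s * H.wD ≠ H.wD * H.pD s) ∨ ∃ s s', H.pD s * H.pD s' ≠ H.pD s' * H.pD s

end grp

/-- The classes of the letters, with windows of height at most `h`. -/
structure IsS {Q : Type} [Group Q] [DecidableEq Q] {B : Lb.{0, 0} Q} {a b : B.L} {σ : Type} {t : σ → B.L}
    {eps : Q →* ℤˣ} {D : Subgroup Q} {u : Q} {i : σ → ℕ} {e k : ℕ} (H : HypS B a b t eps D u i e k) [NeZero e]
    [Fintype D] (X : ∀ _ : σ, ClsW H.up (gN D u e) H.inj (2 * k) (RgN e k D)) (h : ℕ) : Prop where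
  lev : ∀ s r, (X s).lev r = 0
  x : ∀ s r, (X s).x r = r.1
  y : ∀ s r, (X s).y r = yN e H.wD (H.pD s) (i s) k r
  hle : ∀ s r, (X s).H r ≤ h
  clo : ∀ s, ∀ A : Fin e × D → Prop, (∀ r, A ((X s).x r) ↔ A ((X s).y r)) → (X s).Clo A
  vol : ∀ s, ∀ {F : Type} [Field F] (V : Ev B F) (o : F), V.Inv ((u ^ e) ^ k) → (∀ x, V.e x (H.up.up x) = o) →
    (X s).Cu V (fun r => V.e (gN D u e r.1 * (B.q a * (B.q b)⁻¹) ^ (r.2 : ℕ)) (t s) + drN (i s) r.1 o) ∧
      ∀ A : Fin e × D → Prop, (∀ r, A ((X s).x r) ↔ A ((X s).y r)) → (X s).Th V A o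

/-- CLSA (helper87). -/
def ClsAS : Prop :=
  ∀ (Q : Type) [Group Q] [DecidableEq Q] (B : Lb.{0, 0} Q) (a b : B.L) (σ : Type) (t : σ → B.L) (eps : Q →* ℤˣ)
    (D : Subgroup Q) (u : Q) (i : σ → ℕ) (e k : ℕ) (H : HypS B a b t eps D u i e k) [NeZero e] [Fintype D],
    ∃ X : ∀ _ : σ, ClsW H.up (gN D u e) H.inj (2 * k) (RgN e k D), IsS H X (hN e k)

section win

variable {Q : Type} [Group Q] [DecidableEq Q] {B : Lb.{0, 0} Q} {a b : B.L} {σ : Type} {t : σ → B.L}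
  {eps : Q →* ℤˣ} {D : Subgroup Q} {u : Q} {i : σ → ℕ} {e k : ℕ}

/-- The puzzle of the tube, all letters of `σ`. -/
def famS {H : HypS B a b t eps D u i e k} [NeZero e] [Fintype D] [DecidableEq D]
    (X : ∀ _ : σ, ClsW H.up (gN D u e) H.inj (2 * k) (RgN e k D)) :
    FamW (Fin e × D) (RgA σ e k D) H.up ((u ^ e) ^ k) :=
  FamW.ofCls (Nat.mul_pos Nat.two_pos H.kpos) H.per X

/-- The bound for the windows and for the flips (`c` letters). -/
noncomputable def lamS (c e k : ℕ) : ℕ := 6 * ((c * (e * k ^ 2) + 1) * (e * k + 1) ^ (e * k) + 1) * (2 * k + hN e k) + 2 * k * k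

/-- No two versions of a flat window of height at most `Λ` have different volumes. -/
def NoFlS (H : HypS B a b t eps D u i e k) [Fintype D] (x s₁ s₂ : Q) (Λ : ℕ) {R : Type}
    [CommRing R] (V : Vd B R) (w : Q → R) : Prop :=
  ∀ (X X' : TW B) (n : ℕ), n ≤ Λ → FWin H.up (2 * k) (FS D u e) 0 x s₁ s₂ X n →
    Ver H.up X X' n s₂ → dvolw V w X X' = 0

end win

/-- WINS and FLIPS: as `SQ5.N.FlipNS`, with the classes of all letters of `σ`. -/
def FlipAS : Prop :=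
  ∀ (Q : Type) [Group Q] [DecidableEq Q] (B : Lb.{0, 0} Q) (a b : B.L) (σ : Type) [Fintype σ] [DecidableEq σ]
    (t : σ → B.L) (eps : Q →* ℤˣ) (D : Subgroup Q) (u : Q) (i : σ → ℕ) (e k : ℕ)
    (H : HypS B a b t eps D u i e k) [NeZero e] [Fintype D] [DecidableEq D]
    (X : ∀ _ : σ, ClsW H.up (gN D u e) H.inj (2 * k) (RgN e k D)), IsS H X (hN e k) →
    ∀ (f g : RgA σ e k D) (l₀ : Fin e × D), (famS X).puz.Adj g f l₀ →
    ∀ (A : Fin e × D → Prop) [DecidablePred A] (hc : (famS X).Clo A fun r => A r.2.1), A l₀ →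
      SQ4.SCon hc.puz → hc.puz.HypK (fun _ => True) → (∀ v, {r | hc.puz.On r v}.ncard = 2 * k * Fintype.card σ) →
      (∃ (Y : TW B) (n : ℕ), n ≤ lamS (Fintype.card σ) e k ∧
        FWin H.up (2 * k) (FS D u e) 0 (gN D u e l₀) (gN D u e ((famS X).puz.oth f l₀))
          (gN D u e ((famS X).puz.oth g l₀)) Y n) ∧
      ∀ (p : ℕ) (_ : Fact p.Prime), 4 * Fintype.card σ * e * k < p → ∀ (V : Vd B (ZMod p)) (ω : Q → ZMod p),
        V.chi u = 1 → (∀ y, ω (H.up.U y) = ω y) →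
        ω (gN D u e l₀) + ω (gN D u e ((famS X).puz.oth f l₀)) = 0 →
        (∑ v : Fin e × D, if A v then ω (gN D u e v) else 0) ≠ 0 →
        NoFlS H (gN D u e l₀) (gN D u e ((famS X).puz.oth f l₀))
          (gN D u e ((famS X).puz.oth g l₀)) (lamS (Fintype.card σ) e k) V ω →
        (∀ υ υ' o : ZMod p, (∀ y, (evA V eps υ υ').e y (H.up.up y) = o) →
          ∃ Φ : Fin e × D → ZMod p, ∀ r : RgA σ e k D, A r.2.1 →
            (evA V eps υ υ').e (gN D u e r.2.1 * (B.q a * (B.q b)⁻¹) ^ (r.2.2 : ℕ)) (t r.1) + drN (i r.1) r.2.1 o =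
              Φ (yA e H.wD H.pD i k r) - Φ r.2.1) ∧
        (V.chi (B.q a * (B.q b)⁻¹) = 1 → nuW V a b ≠ 0 → ∀ r : RgA σ e k D, A r.2.1 →
          V.chi (gN D u e r.2.1) = V.chi (gN D u e (yA e H.wD H.pD i k r)))

/-- The condition on the voltages at a prime for the two middle letters `s`, `s'`: (1) `w` is a translation, `a s` is not;
(2) `a`, `b` have a common fixed pair which `s` does not respect, and `a s` or `s b` is a translation; (3) `w` is trivial,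
`a`, `b` have a common fixed pair and `s`, `s'` are different reflections. -/
def KapA {Q : Type} [Group Q] {B : Lb.{0, 0} Q} {R : Type} [CommRing R] (V : Vd B R) (a b s s' : B.L) : Prop :=
  (V.chi (B.q a * (B.q b)⁻¹) = 1 ∧ nuW V a b ≠ 0 ∧ V.chi (B.q a * (B.q s)⁻¹) ≠ 1) ∨
    (∃ y y' : R, V.n a + V.chi (B.q a) * y' = y ∧ V.n b + V.chi (B.q b) * y' = y ∧
      (V.chi (B.q a * (B.q s)⁻¹) = 1 ∨ V.chi (B.q s * (B.q b)⁻¹) = 1) ∧ V.n s + V.chi (B.q s) * y' ≠ y) ∨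
    (∃ y y' : R, V.n a + V.chi (B.q a) * y' = y ∧ V.n b + V.chi (B.q b) * y' = y ∧
      V.chi (B.q a * (B.q b)⁻¹) = 1 ∧ V.chi (B.q s) = V.chi (B.q s') ∧ V.n s ≠ V.n s')

/-- LOCA: windows and flips of a local world (from CLSA, GRAPHA, FLIPA, EXA, EXAT). -/
def LocAS : Prop :=
  ∀ (Q : Type) [Group Q] [DecidableEq Q] (B : Lb.{0, 0} Q) (a b : B.L) (σ : Type) [Fintype σ] [DecidableEq σ]
    (t : σ → B.L) (eps : Q →* ℤˣ) (D : Subgroup Q) (u : Q) (i : σ → ℕ) (e k : ℕ)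
    (H : HypS B a b t eps D u i e k) [NeZero e] [Fintype D] [DecidableEq D], H.NC →
    ∀ (x s₁ s₂ : Fin e × D), x ≠ s₁ → x ≠ s₂ → s₁ ≠ s₂ → JnA e H.wD H.pD i k x s₁ → JnA e H.wD H.pD i k x s₂ →
    ∀ (A : Fin e × D → Prop) [DecidablePred A], CmpA e H.wD H.pD i k x A →
      (∃ (Y : TW B) (n : ℕ), n ≤ lamS (Fintype.card σ) e k ∧
        FWin H.up (2 * k) (FS D u e) 0 (gN D u e x) (gN D u e s₁) (gN D u e s₂) Y n) ∧
      ∀ (p : ℕ) (_ : Fact p.Prime), 4 * Fintype.card σ * e * k < p → ∀ (V : Vd B (ZMod p)) (ω : Q → ZMod p),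
        V.chi u = 1 → (∀ y, ω (H.up.U y) = ω y) → ω (gN D u e x) + ω (gN D u e s₁) = 0 →
        (∑ v : Fin e × D, if A v then ω (gN D u e v) else 0) ≠ 0 → (∃ s s', KapA V a b (t s) (t s')) →
        ∃ (X X' : TW B) (n : ℕ), n ≤ lamS (Fintype.card σ) e k ∧
          FWin H.up (2 * k) (FS D u e) 0 (gN D u e x) (gN D u e s₁) (gN D u e s₂) X n ∧
          Ver H.up X X' n (gN D u e s₂) ∧ dvolw V ω X X' ≠ 0

/-- EXT: a flat window and its versions are extended by straight strands. -/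
def ExtS : Prop :=
  ∀ (Q : Type) [Group Q] [DecidableEq Q] (B : Lb.{0, 0} Q) (U : Up B) (K : ℕ) (F F' : Finset Q) (x s₁ s₂ : Q)
    (X : TW B) (n : ℕ), F ⊆ F' → (∀ s ∈ F', ∀ j : ℤ, |j| ≤ n → (U.U ^ j) s ∈ F' → j = 0) →
    FWin U K F 0 x s₁ s₂ X n →
    ∃ Y : TW B, FWin U K F' 0 x s₁ s₂ Y n ∧
      ∀ X' : TW B, Ver U X X' n s₂ → ∃ Y' : TW B, Ver U Y Y' n s₂ ∧
        ∀ (R : Type) [CommRing R] (V : Vd B R) (ω : Q → R), dvolw V ω Y Y' = dvolw V ω X X'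

/-! ### The global data -/

/-- The hypotheses at the level of the quotient `Q = G / C`. -/
structure HypG {Q : Type} [Group Q] (B : Lb.{0, 0} Q) (a b : B.L) (eps : Q →* ℤˣ) (D : Subgroup Q) (z : Q)
    (k τ : ℕ) (num den : B.L → ℕ) : Prop where
  fin : Finite Q
  finL : Finite B.L
  gen : Subgroup.closure (Set.range B.q) = ⊤
  kpos : 0 < k
  nD : D.Normal
  leD : D ≤ eps.ker
  card : Nat.card D ∣ k
  neg : ∀ s, eps (B.q s) = -1
  inv : ∀ s, B.q s * B.q s = 1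
  ez : eps z = 1
  cen : ∀ x : Q, eps x = 1 → x * z = z * x
  cop : ∀ p ∈ (orderOf z).primeFactors, k < p ∧ τ < p
  ker : ∀ x, eps x = 1 → ∃ n : ℤ, ∃ d ∈ D, x = z ^ n * d
  mw : z⁻¹ * (B.q a * (B.q b)⁻¹) ∈ D
  turn : B.q a * z * (B.q a)⁻¹ = z⁻¹
  near : ∀ s, s ≠ a → s ≠ b → 0 < num s ∧ num s < den s ∧ den s ≤ τ ∧
    ∃ v ∈ Subgroup.zpowers z, v ^ den s = z ^ num s ∧ v⁻¹ * (B.q a * (B.q s)⁻¹) ∈ D

section glob

variable {Q : Type} [Group Q] {B : Lb.{0, 0} Q} {a b : B.L} {eps : Q →* ℤˣ} {D : Subgroup Q} {z : Q} {k τ : ℕ}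
  {num den : B.L → ℕ}

/-- The lines. -/
def HypG.up (H : HypG B a b eps D z k τ num den) : Up B := upC B a b eps (H.neg a) (H.neg b)

/-- The middle letters. -/
def Mid (a b : B.L) (σ : Finset B.L) : Prop := ∀ s ∈ σ, s ≠ a ∧ s ≠ b

/-- The group generated by `z`, `w` and the `a s⁻¹`, `s ∈ σ`. -/
def grpA (B : Lb.{0, 0} Q) (a b : B.L) (z : Q) (σ : Finset B.L) : Subgroup Q :=
  Subgroup.closure ({z, B.q a * (B.q b)⁻¹} ∪ {x | ∃ s ∈ σ, x = B.q a * (B.q s)⁻¹})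

/-- `y` is the first vertex of a strand (vertex with the height in `[0, 1)`) which is joined to the strand of `x ∈ D` by a
rung of the letter `s`. -/
def NbQ (B : Lb.{0, 0} Q) (a b s : B.L) (k : ℕ) (x y : Q) : Prop :=
  ∃ l : ℕ, l < k ∧
    (y = x * (B.q a * (B.q b)⁻¹) ^ l * (B.q a * (B.q s)⁻¹)⁻¹ * (B.q a * (B.q b)⁻¹) ^ (1 - (l : ℤ)) ∨
      y = x * (B.q a * (B.q b)⁻¹) ^ l * (B.q a * (B.q s)⁻¹) * (B.q a * (B.q b)⁻¹) ^ (-(l : ℤ)))

end glob

/-- LOCG: the local world of a set of middle letters (`e` = the product of the denominators, `u` = the `e`-th root of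
`z`). -/
def LocGS : Prop :=
  ∀ (Q : Type) [Group Q] (B : Lb.{0, 0} Q) (a b : B.L) (eps : Q →* ℤˣ) (D : Subgroup Q) (z : Q) (k τ : ℕ)
    (num den : B.L → ℕ), HypG B a b eps D z k τ num den → 0 < τ → ∀ σ : Finset B.L, Mid a b σ →
    100 * k ^ 3 * (τ ^ σ.card) ^ 3 < orderOf z →
    ∃ (u : Q) (i : {s // s ∈ σ} → ℕ) (e : ℕ), HypS B a b (fun s : {s // s ∈ σ} => s.1) eps D u i e k ∧ u ^ e = z ∧
      u ∈ Subgroup.zpowers z ∧ e ≤ τ ^ σ.card ∧ 0 < e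

/-- NBL: the neighbours in a local world. -/
def NblS : Prop :=
  ∀ (Q : Type) [Group Q] (B : Lb.{0, 0} Q) (a b : B.L) (σ : Type) (t : σ → B.L) (eps : Q →* ℤˣ)
    (D : Subgroup Q) (u : Q) (i : σ → ℕ) (e k : ℕ) (H : HypS B a b t eps D u i e k) [NeZero e] (x : D) (s : σ) (y : Q),
    NbQ B a b (t s) k x y → ∃ v : Fin e × D, gN D u e v = y ∧ JnA e H.wD H.pD i k (0, x) v

/-- CHOICE: a path and a set of letters such that the coset contains an odd number of lines of class `γ` (`D / ⟨w⟩` = the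
lines; proof: message 07:58Z of helper98). -/
def ChoiceS : Prop :=
  ∀ (D : Type) [Group D] [Finite D] (w : D) (ι : Type) [DecidableEq ι] (p : ι → D) (cl : D → Bool) (N : ℕ)
    (x y₁ y₂ : Fin N → D) (t₁ t₂ : Fin N → ι), 0 < N → (∀ d, cl (d * w) = cl d) →
    (∀ n, cl (x n) = false ∧ cl (y₁ n) = false ∧ cl (y₂ n) = false) →
    (∀ n, (x n)⁻¹ * y₁ n ∈ Subgroup.closure {w, p (t₁ n)}) → (∀ n, (x n)⁻¹ * y₂ n ∈ Subgroup.closure {w, p (t₂ n)}) →
    (∀ d d', cl d = true → cl d' = true → d⁻¹ * d' ∈ Subgroup.zpowers w) →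
    (∀ d, cl d = false → ∃ n, (x n)⁻¹ * d ∈ Subgroup.zpowers w ∨ (y₁ n)⁻¹ * d ∈ Subgroup.zpowers w ∨
      (y₂ n)⁻¹ * d ∈ Subgroup.zpowers w) →
    (∀ ρ : D → D → Prop, Equivalence ρ → (∀ d, ρ d (d * w)) → (∀ n, ρ (x n) (y₁ n) ∧ ρ (x n) (y₂ n)) →
      ∀ d d', cl d = false → cl d' = false → ρ d d') →
    (∀ d, cl d = true → ∃ s d', cl d' = false ∧ d⁻¹ * d' ∈ Subgroup.closure {w, p s}) →
    Odd (Nat.card {d : D // cl d = false} / orderOf w) →
    ∀ (σ₀ : Finset ι) (γ : Bool), (∃ d, cl d = γ) → ∃ (n : Fin N) (σ : Finset ι), σ₀ ⊆ σ ∧ t₁ n ∈ σ ∧ t₂ n ∈ σ ∧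
      σ.card ≤ σ₀.card + 5 ∧
      Odd (Nat.card {d : D // (x n)⁻¹ * d ∈ Subgroup.closure (insert w (p '' σ)) ∧ cl d = γ} / orderOf w)

/-- TREEA: the tree of the lines with all letters, and the choice of a path and of a set of letters for the flips
(at most one line has the class `true`; the number of lines of class `false` is odd; see the message 07:58Z of helper98 for
the proof of the last part). -/
def TreeAS : Prop :=
  ∀ (Q : Type) [Group Q] (B : Lb.{0, 0} Q) (a b : B.L) (eps : Q →* ℤˣ) (D : Subgroup Q) (z : Q) (k τ : ℕ)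
    (num den : B.L → ℕ) (H : HypG B a b eps D z k τ num den) [Fintype D],
    3 ≤ (Subgroup.zpowers (B.q a * (B.q b)⁻¹)).relIndex eps.ker →
    ∃ (d cl : Q → Bool) (N : ℕ) (x : Fin N → D) (s₁ s₂ : Fin N → Q) (t₁ t₂ : Fin N → B.L) (rk : Fin N → ℕ),
      0 < N ∧ N ≤ k ∧ (∀ y, d (H.up.U y) = d y) ∧ (∀ y, cl (H.up.U y) = cl y) ∧
      (∀ n, d (s₁ n) = !d (x n : Q)) ∧ (∀ n, d (s₂ n) = !d (x n : Q)) ∧
      TreeK (lnU H.up) cl (fun n => (x n : Q)) s₁ s₂ rk ∧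
      (∀ n, t₁ n ≠ a ∧ t₁ n ≠ b ∧ NbQ B a b (t₁ n) k (x n) (s₁ n)) ∧
      (∀ n, t₂ n ≠ a ∧ t₂ n ≠ b ∧ NbQ B a b (t₂ n) k (x n) (s₂ n)) ∧
      ∀ σ₀ : Finset B.L, Mid a b σ₀ → ∀ γ : Bool, (∃ y, cl y = γ) →
        ∃ (n : Fin N) (σ : Finset B.L), σ₀ ⊆ σ ∧ t₁ n ∈ σ ∧ t₂ n ∈ σ ∧ Mid a b σ ∧ σ.card ≤ σ₀.card + 5 ∧
          ∀ p : ℕ, p.Prime → k < p → ∀ [DecidablePred (· ∈ grpA B a b z σ)],
            (∑ δ : D, if ((x n)⁻¹ * δ : D).1 ∈ grpA B a b z σ then (wcl cl d γ (δ : Q) : ZMod p) else 0) ≠ 0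

/-- The heights of the windows (at most nine letters). -/
noncomputable def lamA (τ k : ℕ) : ℕ := lamS 9 (τ ^ 9) k

/-- The order that we need. -/
noncomputable def needA (τ k r : ℕ) : ℕ :=
  (4 * (k + 1) * (τ + 1) ^ 30 * (r + 2) * ((2 * r) ^ 2 * lamA τ k + lamA τ k + 2)) ^ 4

/-- HEARTA (from LOCA, LOCG, NBL, EXT, TREEA, WSUMA and HEARTU). -/
def HeartAS : Prop :=
  ∀ (Q : Type) [Group Q] [Fintype Q] (B : Lb.{0, 0} Q) (a b : B.L) (eps : Q →* ℤˣ) (D : Subgroup Q) (z : Q)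
    (k τ : ℕ) (num den : B.L → ℕ), HypG B a b eps D z k τ num den → 0 < τ →
    3 ≤ (Subgroup.zpowers (B.q a * (B.q b)⁻¹)).relIndex eps.ker →
    (∃ x y : Q, eps x = 1 ∧ eps y = 1 ∧ x * y ≠ y * x) →
      ∀ (m : ℕ) (V : Vd B (ZMod m)), Odd m → V.chi z = 1 →
        (∀ p ∈ m.primeFactors, 36 * τ ^ 9 * k < p ∧ 2 * m.primeFactors.card < p) →
        (∀ p, ∀ hp : p ∈ m.primeFactors, ∃ s s' : B.L, s ≠ a ∧ s ≠ b ∧ s' ≠ a ∧ s' ≠ b ∧
          KapA (V.map (red (Nat.dvd_of_mem_primeFactors hp))) a b s s') →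
        needA τ k m.primeFactors.card < orderOf z →
        ∃ T : TourS B Bool, ∀ γ : Bool, (∃ x, T.cls x = γ) → IsUnit (T.vol V γ)

/-! ### Groups -/

/-- Involutions `A` which generate `G`; `a`, `b` extreme; `a s` has the height `num s / den s` of `a b` (modulo `C`). -/
structure NearA {G : Type} [Group G] (N C : Subgroup G) (eps : G →* ℤˣ) (k P : ℕ) (A : Set G) (a b : G) (τ : ℕ)
    (num den : G → ℕ) : Prop where
  gn : GN N C eps k P
  gen : Subgroup.closure A = ⊤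
  neg : ∀ s ∈ A, eps s = -1
  inv : ∀ s ∈ A, s * s = 1
  aA : a ∈ A
  bA : b ∈ A
  ab : a ≠ b
  hab : P ∣ orderOf (a * b)
  τpos : 0 < τ
  bigN : ∀ p ∈ (Nat.card N).primeFactors, 36 * τ ^ 9 * k < p
  rel : ∀ s ∈ A, s ≠ a → s ≠ b → 0 < num s ∧ num s < den s ∧ den s ≤ τ ∧
    (a * s) ^ (den s * k) * ((a * b) ^ (num s * k))⁻¹ ∈ C

theorem NearA.sym {G : Type} [Group G] {N C : Subgroup G} {eps : G →* ℤˣ} {k P : ℕ} {A : Set G} {a b : G} {τ : ℕ}
    {num den : G → ℕ} (h : NearA N C eps k P A a b τ num den) : ∀ x ∈ A, x⁻¹ ∈ A := by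
  intro x hx
  rw [inv_eq_of_mul_eq_one_right (h.inv x hx)]
  exact hx

/-- DSTRA: `Q = G / C`; `z` = the `N / C`-part of `a b`. -/
def DstrAS : Prop :=
  ∀ (G : Type) [Group G] [Finite G] (N C : Subgroup G) (eps : G →* ℤˣ) (k P : ℕ) (A : Set G) (a b : G) (τ : ℕ)
    (num den : G → ℕ) (h : NearA N C eps k P A a b τ num den), ∀ (_ : C.Normal) (h1 : ∀ g ∈ A, g ∈ C → g = 1),
      ∃ (D : Subgroup (G ⧸ C)) (z₀ : G) (eps' : G ⧸ C →* ℤˣ),
        (∀ g, eps' (QuotientGroup.mk' C g) = eps g) ∧ z₀ ∈ N ∧ P ∣ orderOf (QuotientGroup.mk' C z₀) ∧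
        ∀ a' b' : (qLb C A h.sym h1).L, a'.1 = a → b'.1 = b →
          HypG (qLb C A h.sym h1) a' b' eps' D (QuotientGroup.mk' C z₀) k τ (fun s => num s.1) (fun s => den s.1)

/-- KAPA (`s`, `z`, `chi`, `ν` come from HDATA for `C`). Every letter is an involution, so `chi = ± 1`; a letter with
`chi = 1` has `n = 0`; not all letters have `chi = -1`; two letters with `chi = -1` have different `n`. -/
def KapAS : Prop :=
  ∀ (G : Type) [Group G] [Finite G] (N C : Subgroup G) (eps : G →* ℤˣ) (k P : ℕ) (A : Set G) (a b : G) (τ : ℕ)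
    (num den : G → ℕ) (h : NearA N C eps k P A a b τ num den), ∀ (_ : C.Normal) (h1 : ∀ g ∈ A, g ∈ C → g = 1)
    (a' b' : (qLb C A h.sym h1).L), a'.1 = a → b'.1 = b →
    ∀ (s : G ⧸ C →* G) (z : G) (chi : G ⧸ C →* ZMod (Nat.card C)) (ν : G → ZMod (Nat.card C)),
    (∀ q, QuotientGroup.mk' C (s q) = q) → Subgroup.zpowers z = C → orderOf z = Nat.card C →
    (∀ q, s q * z * (s q)⁻¹ = z ^ (chi q).val) → (∀ g, g = z ^ (ν g).val * s (QuotientGroup.mk' C g)) →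
    ∀ (V : Vd (qLb C A h.sym h1) (ZMod (Nat.card C))), V.chi = chi → (∀ g, V.n g = ν g.1) →
    ∀ p, ∀ hp : p ∈ (Nat.card C).primeFactors, ∃ s s' : (qLb C A h.sym h1).L, s ≠ a' ∧ s ≠ b' ∧ s' ≠ a' ∧ s' ≠ b' ∧
      KapA (V.map (red (Nat.dvd_of_mem_primeFactors hp))) a' b' s s'

/-- NEARALL. -/
def NearAllS : Prop :=
  ∃ c₀ : ℕ, ∀ (G : Type) [Group G] [Finite G] (N C : Subgroup G) (eps : G →* ℤˣ) (k P : ℕ) (A : Set G) (a b : G)
    (τ : ℕ) (num den : G → ℕ), NearA N C eps k P A a b τ num den →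
    (∃ x y : G, eps x = 1 ∧ eps y = 1 ∧ x * y * x⁻¹ * y⁻¹ ∉ N) →
    2 ^ ((k + τ + (Nat.card G).primeFactorsList.length) ^ c₀) ≤ P → Lst A

/-- EXTR: the extreme letters, and the fractions (`τ` = bound for the relations; all heights are `r_s g` with a common
unit `g` and rational `r_s` with numerator and denominator at most `τ`; denominators of
`(r_a - r_s) / (r_a - r_b)`: at most `2 τ ^ 3`). -/
def ExtrS : Prop :=
  ∀ (G : Type) [Group G] [Finite G] (N C : Subgroup G) (eps : G →* ℤˣ) (k P : ℕ) (A : Set G) (τ : ℕ),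
    GN N C eps k P → Subgroup.closure A = ⊤ → (∀ s ∈ A, eps s = -1) → (∀ s ∈ A, s * s = 1) →
    (∃ x ∈ A, ∃ y ∈ A, x ≠ y) → 0 < τ → (∀ p ∈ (Nat.card N).primeFactors, 36 * (2 * τ ^ 3) ^ 9 * k < p) →
    (∀ x ∈ A, ∀ y ∈ A, ∀ z ∈ A, SQD.RelN N C x y z τ) → (∀ x ∈ A, ∀ y ∈ A, x ≠ y → P ∣ orderOf (x * y)) →
    ∃ (a b : G) (num den : G → ℕ), NearA N C eps k P A a b (2 * τ ^ 3) num den

end Pool.Agent.Lib.MP_688fd0_co.SQ5.NA
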